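import Pool.Agent.Q204.FT.Main

/-!
# The four-term inequality for normalized Dirichlet eigenvalues fails for convex potentials

For every index `i ≥ 1` there is a convex potential `V ≥ 0` on a bounded interval `[a, b]` with
`μ_i + μ_{i+3} < μ_{i+1} + μ_{i+2}`, where `μ_n = λ_n / n²` and `λ_1 < λ_2 < ...` are the Dirichlet
eigenvalues of `-u'' + V u` on `[a, b]`. The potential is `V x = 2 / sinh² x` on
`[1/2, 1/2 + 100 (i+3)²]`: its eigenvalues are `k²` with
`k (b - a) + arctan (k tanh a) - arctan (k tanh b) = n π`.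
-/

set_option autoImplicit false

open Set

namespace Pool.Agent.Results.MP_303525_mp.FailsForEveryIndex

/-- `lam` is an eigenvalue of `-u'' + V u` on `[a, b]` with Dirichlet boundary conditions: there is
a twice differentiable function `u` on `[a, b]` (`u'` is its derivative), not identically zero, with
`u'' = (V - lam) u` on `[a, b]` and `u a = u b = 0`. -/
def IsEigenvalue (a b : ℝ) (V : ℝ → ℝ) (lam : ℝ) : Prop :=
  ∃ u u' : ℝ → ℝ, (∀ x ∈ Icc a b, HasDerivWithinAt u (u' x) (Icc a b) x) ∧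
    (∀ x ∈ Icc a b, HasDerivWithinAt u' ((V x - lam) * u x) (Icc a b) x) ∧
    u a = 0 ∧ u b = 0 ∧ ∃ x ∈ Icc a b, u x ≠ 0

/-- `lam 1 < lam 2 < lam 3 < ...` are all the eigenvalues of `-u'' + V u` on `[a, b]` with Dirichlet
boundary conditions, in increasing order. -/
def AreEigenvalues (a b : ℝ) (V : ℝ → ℝ) (lam : ℕ → ℝ) : Prop :=
  (∀ m n : ℕ, 1 ≤ m → m < n → lam m < lam n) ∧
  ∀ y : ℝ, IsEigenvalue a b V y ↔ ∃ n : ℕ, 1 ≤ n ∧ lam n = y

/-- For every `i ≥ 1` there are a bounded interval `[a, b]` and a convex continuous potential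
`V ≥ 0` on it such that the normalized Dirichlet eigenvalues `μ_n = λ_n / n²` of `-u'' + V u` satisfy
`μ_i + μ_{i+3} < μ_{i+1} + μ_{i+2}`. -/
theorem result (i : ℕ) (hi : 1 ≤ i) :
    ∃ (a b : ℝ) (V : ℝ → ℝ) (lam : ℕ → ℝ), a < b ∧ ContinuousOn V (Icc a b) ∧
      ConvexOn ℝ (Icc a b) V ∧ (∀ x ∈ Icc a b, 0 ≤ V x) ∧ AreEigenvalues a b V lam ∧
      lam i / (i : ℝ) ^ 2 + lam (i + 3) / ((i + 3 : ℕ) : ℝ) ^ 2 <
        lam (i + 1) / ((i + 1 : ℕ) : ℝ) ^ 2 + lam (i + 2) / ((i + 2 : ℕ) : ℝ) ^ 2 := by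
  obtain ⟨a, b, lam, hab, hc, hv, hn, hm, he, hlt⟩ := Pool.Agent.Q204.FT.main i hi
  refine ⟨a, b, Pool.Agent.Q204.FT.V, fun n => lam (n - 1), hab, hc, hv, hn, ⟨?_, ?_⟩, ?_⟩
  · intro m n h1 h2
    exact hm (by omega)
  · intro y
    have h1 : IsEigenvalue a b Pool.Agent.Q204.FT.V y ↔
        Pool.Agent.Q204.FT.IsEigenvalue a b Pool.Agent.Q204.FT.V y := Iff.rfl
    rw [h1, ← he y]
    constructor
    · rintro ⟨n, hn⟩
      exact ⟨n + 1, by omega, by simpa using hn⟩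
    · rintro ⟨n, h1, h2⟩
      exact ⟨n - 1, h2⟩
  · push_cast
    exact hlt

end Pool.Agent.Results.MP_303525_mp.FailsForEveryIndex
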